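import Pool.Agent.Y919.REC.Main

/-!
# Every group is a subgroup of a non-amenable group in which measurable recurrence implies
topological recurrence

The definitions (`Pool/Agent/Y919/REC/Base.lean`) are those of the starting file `NonAmenable`:
`IsAmenable` (there is a left-invariant mean on the bounded real functions),
`TopologicalRecurrence` (minimal actions by homeomorphisms on compact metric spaces) and
`MeasurableRecurrence` (measure-preserving actions on probability spaces).
-/

set_option autoImplicit false

namespace Pool.Agent.Results.MP_290264_an.EveryGroupEmbeds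

open Cardinal Pool.Agent.Y919.REC

universe v w

/-- **Main theorem.**
(1) Every group `H` embeds into a non-amenable group `G` in which every set of measurable
recurrence is a set of topological recurrence.
(2) Let `Ω` be an infinite set with more than continuum many subsets (for example any set with at
least continuum many elements) and let `A` be any amenable group. The group `A × Sym(Ω)` is not
amenable, `Sym(Ω)` acts trivially in every action of `A × Sym(Ω)` by homeomorphisms on a compact
metric space, and every set of measurable recurrence in `A × Sym(Ω)` is a set of topological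
recurrence. -/
theorem result :
    (∀ (H : Type) [Group H], ∃ (G : Type) (_ : Group G) (ι : H →* G), Function.Injective ι ∧
      ¬ IsAmenable G ∧
      ∀ R : Set G, MeasurableRecurrence.{0, w} G R → TopologicalRecurrence.{0, v} G R) ∧
    ∀ (Ω A : Type) [Group A], ℵ₀ ≤ #Ω → 𝔠 < 2 ^ #Ω → IsAmenable A →
      ¬ IsAmenable (A × Equiv.Perm Ω) ∧
      (∀ (X : Type v) [MetricSpace X] [CompactSpace X] [MulAction (A × Equiv.Perm Ω) X],
        (∀ g : A × Equiv.Perm Ω, Continuous fun x : X => g • x) →
        ∀ g : A × Equiv.Perm Ω, g.1 = 1 → ∀ x : X, g • x = x) ∧
      ∀ R : Set (A × Equiv.Perm Ω), MeasurableRecurrence.{0, w} (A × Equiv.Perm Ω) R →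
        TopologicalRecurrence.{0, v} (A × Equiv.Perm Ω) R := by
  refine ⟨fun H _ => ?_, fun Ω A _ hi hc hA => main Ω A hi hc hA⟩
  have hcard : 𝔠 ≤ #(H × ℝ) := card_ge H
  obtain ⟨h1, -, h3⟩ := main0.{v, w} (H × ℝ) (aleph0_le_continuum.trans hcard)
    (lt_of_le_of_lt hcard (cantor _))
  refine ⟨Equiv.Perm (H × ℝ), inferInstance, (MonoidHom.snd H _).comp (emb H H), ?_, h1, h3⟩
  intro a b h
  exact emb_injective H H (Prod.ext rfl h)

end Pool.Agent.Results.MP_290264_an.EveryGroupEmbeds
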